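import Pool.Agent.Helper44.KD.Three
import Pool.Agent.Helper4.KDF.F2

/-!
# Block variance for every base (block F1 of KD)
-/

set_option autoImplicit false

namespace Pool.Agent.Helper23.KD

open MeasureTheory Set Filter Topology H44TX Pool.Agent.Helper78.KD
open Finset (range sum_congr)

/-- the covariance at a fixed lag on long intervals, uniformly in the test function -/
theorem lag_unif {θ ε : ℝ} (hθ : 1 < θ) (hε : 0 < ε) (d : ℕ) :
    ∃ T₀ : ℝ, ∀ φ : ℝ → ℝ, IsBV φ → ∀ α κ ℓ : ℝ, 0 < κ → 0 < ℓ → T₀ ≤ κ * ℓ →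
      |(∫ y in (0 : ℝ)..ℓ, φ (α + κ * y) * φ (θ ^ d * α + θ ^ d * κ * y)) / ℓ - rho θ φ d| ≤ ε := by
  by_cases hr : ∃ r : ℚ, (r : ℝ) = θ ^ d
  · obtain ⟨r, hr⟩ := hr
    obtain ⟨hp, hq, he⟩ := Pool.Agent.Helper4.KDF.numden hθ hr
    set Q : ℝ := (r.den : ℝ) with hQ
    set P : ℝ := (r.num : ℝ) with hP
    refine ⟨2 * Q / ε, ?_⟩
    intro φ h α κ ℓ hκ hℓ hT
    rw [rho_of_eq φ hr, ← hQ, ← hP]
    have hPQ : θ ^ d = P / Q := by
      rw [← hr]
      conv_lhs => rw [← Rat.num_div_den r]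
      push_cast
      rfl
    have hperz : ∀ (z : ℤ) (t : ℝ), φ (t + z) = φ t := fun z t => by
      have := h.per.int_mul z t
      simpa using this
    have hmul : ∀ a b : ℝ, |a| ≤ 1 → |b| ≤ 1 → |a * b| ≤ 1 := by
      intro a b ha hb
      rw [abs_mul]
      calc |a| * |b| ≤ 1 * 1 := mul_le_mul ha hb (abs_nonneg _) (by norm_num)
        _ = 1 := by norm_num
    have hm : ∀ c : ℝ, Measurable fun t : ℝ => φ (c * t) := fun c =>
      h.meas.comp (measurable_const.mul measurable_id)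
    have hper : Function.Periodic (fun t => φ (P * t) * φ (Q * t)) 1 := by
      intro t
      simp only
      have e1 : P * (t + 1) = P * t + (r.num : ℤ) := by rw [hP]; ring
      have e2 : Q * (t + 1) = Q * t + ((r.den : ℤ) : ℝ) := by rw [hQ]; push_cast; ring
      rw [e1, e2, hperz, hperz]
    have hκQ : 0 < κ / Q := by positivity
    have key := Pool.Agent.Helper44.KD.per_avg (F := fun t => φ (P * t) * φ (Q * t))
      ((hm P).mul (hm Q)) (fun t => hmul _ _ (h.bdd _) (h.bdd _)) hper (α / Q) (κ / Q) ℓ hκQ hℓ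
    have e3 : ∀ y : ℝ, φ (P * (α / Q + κ / Q * y)) * φ (Q * (α / Q + κ / Q * y))
        = φ (α + κ * y) * φ (θ ^ d * α + θ ^ d * κ * y) := by
      intro y
      have e4 : P * (α / Q + κ / Q * y) = θ ^ d * α + θ ^ d * κ * y := by
        rw [hPQ]; field_simp
      have e5 : Q * (α / Q + κ / Q * y) = α + κ * y := by field_simp
      rw [e4, e5, mul_comm]
    simp only [e3] at key
    refine key.trans ?_
    rw [div_le_iff₀ (by positivity)]
    rw [div_le_iff₀ hε] at hT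
    have : ε * (κ / Q * ℓ) = (κ * ℓ * ε) / Q := by ring
    rw [this, le_div_iff₀ hq]
    exact hT
  · have hirr : Irrational (θ ^ d) := fun ⟨r, hr'⟩ => hr ⟨r, hr'⟩
    obtain ⟨τ, hτ, T₀, H⟩ := near_bound hirr hε
    refine ⟨T₀, ?_⟩
    intro φ h α κ ℓ hκ hℓ hT
    rw [rho_of_irr φ hirr, sub_zero]
    refine H φ h α κ (θ ^ d * α) (θ ^ d * κ) ℓ hκ hℓ ?_ hT
    have : θ ^ d * κ / κ = θ ^ d := by field_simp
    rw [this, sub_self, abs_zero]
    exact hτ.le

/-- finitely many lags -/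
theorem lags_unif {θ ε : ℝ} (hθ : 1 < θ) (hε : 0 < ε) (D : ℕ) :
    ∃ T₀ : ℝ, ∀ d ≤ D, ∀ φ : ℝ → ℝ, IsBV φ → ∀ α κ ℓ : ℝ, 0 < κ → 0 < ℓ → T₀ ≤ κ * ℓ →
      |(∫ y in (0 : ℝ)..ℓ, φ (α + κ * y) * φ (θ ^ d * α + θ ^ d * κ * y)) / ℓ - rho θ φ d| ≤ ε := by
  induction D with
  | zero =>
    obtain ⟨T, hT⟩ := lag_unif hθ hε 0
    exact ⟨T, fun d hd => by
      have : d = 0 := by omega
      subst this
      exact hT⟩
  | succ D ih =>
    obtain ⟨T, hT⟩ := ih
    obtain ⟨T', hT'⟩ := lag_unif hθ hε (D + 1)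
    refine ⟨max T T', ?_⟩
    intro d hd φ h α κ ℓ hκ hℓ hl
    rcases Nat.lt_or_ge D d with h1 | h1
    · have : d = D + 1 := by omega
      subst this
      exact hT' φ h α κ ℓ hκ hℓ ((le_max_right _ _).trans hl)
    · exact hT d h1 φ h α κ ℓ hκ hℓ ((le_max_left _ _).trans hl)

/-- the double sum of a function of the distance -/
theorem sq_sum (f : ℕ → ℝ) (L : ℕ) : ∑ i ∈ range L, ∑ j ∈ range L, f ((i - j) + (j - i))
    = ∑ j ∈ range L, (f 0 + 2 * ∑ k ∈ range j, f (k + 1)) := by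
  induction L with
  | zero => simp
  | succ L ih =>
    have hrev : ∑ i ∈ range L, f (L - i) = ∑ k ∈ range L, f (k + 1) := by
      rw [← Finset.sum_range_reflect]
      apply sum_congr rfl
      intro i hi
      have := Finset.mem_range.1 hi
      congr 1
      omega
    rw [Finset.sum_range_succ, Finset.sum_range_succ (fun j => f 0 + 2 * ∑ k ∈ range j, f (k + 1)),
      ← ih]
    have a1 : ∑ i ∈ range L, ∑ j ∈ range (L + 1), f ((i - j) + (j - i))
        = ∑ i ∈ range L, ∑ j ∈ range L, f ((i - j) + (j - i)) + ∑ k ∈ range L, f (k + 1) := by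
      rw [← hrev, ← Finset.sum_add_distrib]
      apply sum_congr rfl
      intro i hi
      have := Finset.mem_range.1 hi
      rw [Finset.sum_range_succ]
      congr 2
      omega
    have a2 : ∑ j ∈ range (L + 1), f ((L - j) + (j - L)) = ∑ k ∈ range L, f (k + 1) + f 0 := by
      rw [Finset.sum_range_succ, ← hrev]
      congr 1
      · apply sum_congr rfl
        intro j hj
        have := Finset.mem_range.1 hj
        congr 1
        omega
      · congr 1
        omega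
    rw [a1, a2]
    ring

/-- the double sum of the limit covariances is close to `L` times the limit variance -/
theorem sum_rho {θ : ℝ} (hθ : 1 < θ) : ∃ C : ℝ, 0 ≤ C ∧ ∀ φ : ℝ → ℝ, IsBV φ → ∀ L : ℕ,
    |∑ i ∈ range L, ∑ j ∈ range L, rho θ φ ((i - j) + (j - i)) - L * sig θ φ| ≤ C := by
  have hθ0 : 0 < θ := by linarith
  set r : ℝ := θ⁻¹ with hr
  have hr0 : 0 < r := inv_pos.2 hθ0
  have hr1 : r < 1 := inv_lt_one_of_one_lt₀ hθ
  refine ⟨10 / (1 - r) * (1 / (1 - r)), by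
    have : 0 < 1 - r := by linarith
    positivity, ?_⟩
  intro φ h L
  rw [sq_sum]
  have hrho : ∀ d, |rho θ φ d| ≤ 5 * r ^ d := Pool.Agent.Helper4.KDF.rho_le hθ h
  have hg : Summable fun d : ℕ => 5 * r ^ (d + 1) := by
    have := (summable_geometric_of_lt_one hr0.le hr1).mul_left (5 * r)
    refine this.congr fun d => ?_
    rw [pow_succ]; ring
  have hs : Summable fun d : ℕ => rho θ φ (d + 1) :=
    Summable.of_norm_bounded hg fun d => by rw [Real.norm_eq_abs]; exact hrho (d + 1)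
  have htail : ∀ j : ℕ, |∑ k ∈ range j, rho θ φ (k + 1) - ∑' k : ℕ, rho θ φ (k + 1)|
      ≤ 5 / (1 - r) * r ^ j := by
    intro j
    have e1 := hs.sum_add_tsum_nat_add j
    have e2 : ∑ k ∈ range j, rho θ φ (k + 1) - ∑' k : ℕ, rho θ φ (k + 1)
        = - ∑' k : ℕ, rho θ φ (k + j + 1) := by
      rw [← e1]; ring
    rw [e2, abs_neg, ← Real.norm_eq_abs]
    have hsum : HasSum (fun k : ℕ => 5 * r ^ j * r ^ k) (5 * r ^ j * (1 - r)⁻¹) :=
      (hasSum_geometric_of_lt_one hr0.le hr1).mul_left _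
    have e3 : 5 / (1 - r) * r ^ j = 5 * r ^ j * (1 - r)⁻¹ := by
      rw [div_eq_mul_inv]; ring
    rw [e3]
    refine tsum_of_norm_bounded hsum fun k => ?_
    rw [Real.norm_eq_abs]
    refine (hrho _).trans ?_
    have e4 : r ^ (k + j + 1) ≤ r ^ j * r ^ k := by
      rw [← pow_add, add_comm j k]
      exact pow_le_pow_of_le_one hr0.le hr1.le (by omega)
    linarith
  have e5 : (L : ℝ) * sig θ φ = ∑ j ∈ range L, sig θ φ := by
    rw [Finset.sum_const, Finset.card_range, nsmul_eq_mul]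
  rw [e5, ← Finset.sum_sub_distrib]
  refine (Finset.abs_sum_le_sum_abs _ _).trans ?_
  have hterm : ∀ j ∈ range L, |(rho θ φ 0 + 2 * ∑ k ∈ range j, rho θ φ (k + 1)) - sig θ φ|
      ≤ 10 / (1 - r) * r ^ j := by
    intro j _
    have e6 : (rho θ φ 0 + 2 * ∑ k ∈ range j, rho θ φ (k + 1)) - sig θ φ
        = 2 * (∑ k ∈ range j, rho θ φ (k + 1) - ∑' k : ℕ, rho θ φ (k + 1)) := by
      unfold sig; ring
    rw [e6, abs_mul, abs_of_pos (by norm_num : (0 : ℝ) < 2)]
    have := htail j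
    have e7 : 10 / (1 - r) * r ^ j = 2 * (5 / (1 - r) * r ^ j) := by ring
    rw [e7]
    linarith
  refine (Finset.sum_le_sum hterm).trans ?_
  rw [← Finset.mul_sum]
  have h1r : 0 < 1 - r := by linarith
  apply mul_le_mul_of_nonneg_left _ (by positivity)
  rw [one_div]
  exact sum_le_hasSum (range L) (fun i _ => by positivity) (hasSum_geometric_of_lt_one hr0.le hr1)

theorem block_all {θ ε : ℝ} (hθ : 1 < θ) (hε : 0 < ε) : ∃ L₀ : ℕ, ∀ φ : ℝ → ℝ, IsBV φ → ∀ L : ℕ, L₀ ≤ L →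
    ∀ (n₀ : ℕ) (a b : ℝ), BlockVar φ (fun n ξ => ξ * θ ^ (n + n₀ + 1)) a b (sig θ φ) ε L := by
  have hθ0 : 0 < θ := by linarith
  obtain ⟨D, ε₁, hε₁, hrows⟩ := Pool.Agent.Helper44.KD.rows hθ (show (0 : ℝ) ≤ 7 by norm_num)
    (show (0 : ℝ) < ε / 2 by positivity)
  obtain ⟨T₀, hT₀⟩ := lags_unif hθ hε₁ D
  obtain ⟨i₀, hi₀⟩ := Filter.eventually_atTop.1
    ((tendsto_pow_atTop_atTop_of_one_lt hθ).eventually_ge_atTop T₀)
  obtain ⟨L₁, hL₁⟩ := hrows i₀
  obtain ⟨C, hC0, hC⟩ := sum_rho hθ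
  obtain ⟨L₂, hL₂⟩ := exists_nat_ge (2 * C / ε)
  refine ⟨max L₁ L₂, ?_⟩
  intro φ hbv L hL n₀ a b n p q hp hpq hq h1 h2
  set ℓ := q - p with hℓ
  have hℓ0 : 0 < ℓ := by rw [hℓ]; linarith
  let κ : ℕ → ℝ := fun i => θ ^ (n + i + n₀ + 1)
  have hκ0 : ∀ i, 0 < κ i := fun i => by simp only [κ]; positivity
  have hκ3 : ∀ i d, κ (i + d) = θ ^ d * κ i := by
    intro i d
    simp only [κ]
    rw [← pow_add]; congr 1; ring
  have hlen0 : 1 ≤ κ 0 * ℓ := by
    simp only [κ]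
    rw [hℓ]
    simp only [add_zero] at h1 ⊢
    linarith
  have hlen : ∀ i, θ ^ i ≤ κ i * ℓ := by
    intro i
    have := hκ3 0 i
    rw [zero_add] at this
    rw [this, mul_assoc]
    have h3 : (0 : ℝ) < θ ^ i := by positivity
    nlinarith
  have hinv : ∀ i, 1 / (κ i * ℓ) ≤ θ⁻¹ ^ i := by
    intro i
    rw [inv_pow, ← one_div]
    exact one_div_le_one_div_of_le (by positivity) (hlen i)
  have hrpos : ∀ j : ℕ, (0 : ℝ) < θ⁻¹ ^ j := fun j => by positivity
  let c : ℕ → ℕ → ℝ := fun i j =>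
    (∫ y in (0 : ℝ)..ℓ, φ (p * κ i + κ i * y) * φ (p * κ j + κ j * y)) / ℓ
  let c' : ℕ → ℕ → ℝ := fun i j => c i j - rho θ φ ((i - j) + (j - i))
  have hcc : ∀ i j, c' i j = c' j i := by
    intro i j
    simp only [c', c]
    rw [add_comm (i - j)]
    congr 3
    funext y
    ring
  have hcρ : ∀ i d, d ≤ D → T₀ ≤ κ i * ℓ → |c i (i + d) - rho θ φ d| ≤ ε₁ := by
    intro i d hd hT
    have := hT₀ d hd φ hbv (p * κ i) (κ i) ℓ (hκ0 i) hℓ0 hT
    have e1 : c i (i + d) = (∫ y in (0 : ℝ)..ℓ, φ (p * κ i + κ i * y)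
        * φ (θ ^ d * (p * κ i) + θ ^ d * κ i * y)) / ℓ := by
      simp only [c]
      congr 2
      funext y
      congr 2
      rw [hκ3]; ring
    rw [e1]
    exact this
  -- diagonal
  have hdiag : ∀ j < L, |c' j j - 0| ≤ 7 * θ⁻¹ ^ j := by
    intro j _
    have hb := diag_bound hbv (p * κ j) (κ j) ℓ (hκ0 j) hℓ0
    have e : c' j j - 0 = (∫ y in (0 : ℝ)..ℓ, φ (p * κ j + κ j * y) ^ 2) / ℓ
        - ∫ t in (0 : ℝ)..1, φ t ^ 2 := by
      simp only [c', c, Nat.sub_self, add_zero, sub_zero]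
      rw [rho_zero]
      congr 3
      funext y
      ring
    rw [e]
    have := hrpos j
    have := hinv j
    linarith
  have hgen : ∀ i j, i < j → j < L → |c' i j| ≤ 7 * θ⁻¹ ^ (j - i) + 7 * θ⁻¹ ^ j := by
    intro i j hij _
    have hb := lag_bound hbv (p * κ i) (κ i) (p * κ j) (κ j) ℓ (hκ0 i) (hκ0 j) hℓ0
    have e1 : κ i / κ j = θ⁻¹ ^ (j - i) := by
      have := hκ3 i (j - i)
      have e2 : i + (j - i) = j := by omega
      rw [e2] at this
      have h3 := hκ0 i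
      rw [this, inv_pow]
      field_simp
    have e2 : 3 / (κ j * ℓ) = 3 * (1 / (κ j * ℓ)) := by ring
    rw [e1, e2] at hb
    have e3 : (i - j) + (j - i) = j - i := by omega
    have h3 := hinv j
    have h4 := hrpos (j - i)
    have h5 := hrpos j
    have h8 := Pool.Agent.Helper4.KDF.rho_le hθ hbv (j - i)
    have h6 : |c' i j| ≤ |c i j| + |rho θ φ (j - i)| := by
      simp only [c', e3]
      exact abs_sub _ _
    have h7 : |c i j| ≤ 2 * θ⁻¹ ^ (j - i) + 3 * (1 / (κ j * ℓ)) := hb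
    linarith
  have hnear : ∀ i j, i₀ ≤ i → i < j → j ≤ i + D → j < L → |c' i j| ≤ ε₁ := by
    intro i j hi hij hjD _
    have h3 := hcρ i (j - i) (by omega) ((hi₀ i hi).trans (hlen i))
    have e2 : i + (j - i) = j := by omega
    rw [e2] at h3
    have e3 : (i - j) + (j - i) = j - i := by omega
    simp only [c', e3]
    exact h3
  have hfin := hL₁ L ((le_max_left _ _).trans hL) c' 0 hcc hdiag hgen hnear
  rw [mul_zero, sub_zero] at hfin
  -- expansion
  have hsq := sq_int hbv (fun i => p * κ i) κ ℓ L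
  have hcov : ∀ i j, cov φ (fun i => p * κ i) κ ℓ i j = c i j := fun i j => rfl
  simp only [hcov] at hsq
  have hshift : (∫ x in p..q, (∑ j ∈ Finset.Ico n (n + L), φ (x * θ ^ (j + n₀ + 1))) ^ 2)
      = ∫ y in (0 : ℝ)..ℓ, (∑ j ∈ range L, φ (p * κ j + κ j * y)) ^ 2 := by
    have e1 := intervalIntegral.integral_comp_add_left (a := 0) (b := ℓ)
      (fun x => (∑ j ∈ Finset.Ico n (n + L), φ (x * θ ^ (j + n₀ + 1))) ^ 2) p
    have e2 : p + 0 = p := by ring
    have e3 : p + ℓ = q := by rw [hℓ]; ring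
    rw [e2, e3] at e1
    rw [← e1]
    congr 1
    funext y
    congr 1
    rw [Finset.sum_Ico_eq_sum_range, Nat.add_sub_cancel_left]
    apply Finset.sum_congr rfl
    intro j _
    congr 1
    simp only [κ]
    ring
  have hc'sum : ∑ i ∈ range L, ∑ j ∈ range L, c i j
      = ∑ i ∈ range L, ∑ j ∈ range L, c' i j
        + ∑ i ∈ range L, ∑ j ∈ range L, rho θ φ ((i - j) + (j - i)) := by
    rw [← Finset.sum_add_distrib]
    apply Finset.sum_congr rfl
    intro i _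
    rw [← Finset.sum_add_distrib]
    apply Finset.sum_congr rfl
    intro j _
    simp only [c']; ring
  rw [hc'sum] at hsq
  have hLε : C ≤ ε / 2 * L := by
    have h3 : (2 * C / ε) ≤ L := hL₂.trans (by exact_mod_cast (le_max_right _ _).trans hL)
    rw [div_le_iff₀ (by positivity)] at h3
    linarith
  rw [hshift]
  rw [div_eq_iff hℓ0.ne'] at hsq
  rw [hsq]
  have e1 : (∑ i ∈ range L, ∑ j ∈ range L, c' i j
        + ∑ i ∈ range L, ∑ j ∈ range L, rho θ φ ((i - j) + (j - i))) * ℓ - sig θ φ * L * ℓ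
      = (∑ i ∈ range L, ∑ j ∈ range L, c' i j
        + (∑ i ∈ range L, ∑ j ∈ range L, rho θ φ ((i - j) + (j - i)) - L * sig θ φ)) * ℓ := by ring
  rw [e1, abs_mul, abs_of_pos hℓ0]
  apply mul_le_mul_of_nonneg_right _ hℓ0.le
  refine (abs_add_le _ _).trans ?_
  have := hC φ hbv L
  linarith

end Pool.Agent.Helper23.KD
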